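import Pool.Agent.Helper70.GUM.St2

/-!
# Module BL0 of project GUM (MP_0bd1d1_al)
-/

set_option autoImplicit false

namespace Pool.Agent.Helper10.GUM

open Pool.Agent.Helper70.GUM Module OG UN

universe u v w z y o

section

variable {k : Type u} {F : Type v} {R : Type w} {K : Type z} {E : Type y} {Ω : Type o} [Field k]
  [Fintype k] [Field F] [Fintype F] [Algebra k F] {σ : F ≃ₐ[k] F} [CommRing R] [IsDomain R]
  [Field K] [Algebra R K] {hσ : QE σ} [Group E] [MulAction E Ω] {H : Set E} {S : Set Ω}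

omit [Fintype k] [Fintype F] [IsDomain R] in
private theorem th_eq (G : G3 hσ H S) (χ : AddChar F R) (b : F) (c : K) :
    (fun s => c * G.th K χ b s) =
      G.ext (fun g : Hei hσ => c * algebraMap R K (χ (-(b * g.a)))) := by
  funext s
  unfold G3.th
  by_cases h : ∃ g, s = G.w g
  · obtain ⟨g, rfl⟩ := h
    rw [G.ext_w, G.ext_w]
  · have h' : ∀ g, s ≠ G.w g := fun g hg => h ⟨g, hg⟩
    rw [G.ext_no _ s h', G.ext_no _ s h', mul_zero]

omit [Fintype k] [Fintype F] [IsDomain R] in
private theorem th_tor (G : G3 hσ H S) (χ : AddChar F R) (hA : Ac (K := K) G) (b t : F)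
    (ht : t ≠ 0) (c : K) :
    act (G.tor t) (fun s => c * G.th K χ b s) = (fun s => c * G.th K χ (b * σ t⁻¹) s) := by
  rw [th_eq, th_eq, hA.text t _ ht]
  congr 1
  funext g
  rw [scl_a, mul_assoc]

omit [Fintype k] [IsDomain R] in
open scoped Classical in
private theorem sum_a (hσ : QE σ) {ε : F} (hε : ε + σ ε = 1) (φ : F → R)
    (h0 : ∑ a : F, φ a = 0) : ∑ v : Hei hσ, φ v.a = 0 := by
  have h1 := Finset.sum_fiberwise (Finset.univ : Finset (Hei hσ)) (fun v => v.a)
    (fun v => φ v.a)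
  rw [← h1]
  have h2 : ∀ a : F, ((Finset.univ : Finset (Hei hσ)).filter fun v => v.a = a).card =
      ((Finset.univ : Finset (Hei hσ)).filter fun v => v.a = 0).card := by
    intro a
    symm
    refine Finset.card_bij (fun v _ => sc hσ ε a * v) ?_ ?_ ?_
    · intro v hv
      rw [Finset.mem_filter] at hv ⊢
      refine ⟨Finset.mem_univ _, ?_⟩
      rw [Hei.mul_a, sc_a hε, hv.2, add_zero]
    · intro v _ v' _ h
      exact mul_left_cancel h
    · intro v hv
      rw [Finset.mem_filter] at hv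
      refine ⟨(sc hσ ε a)⁻¹ * v, ?_, by rw [mul_inv_cancel_left]⟩
      rw [Finset.mem_filter]
      refine ⟨Finset.mem_univ _, ?_⟩
      rw [Hei.mul_a, Hei.inv_a, sc_a hε, hv.2, neg_add_cancel]
  have h3 : ∀ a : F, ∑ v ∈ (Finset.univ : Finset (Hei hσ)).filter (fun v => v.a = a), φ v.a =
      (((Finset.univ : Finset (Hei hσ)).filter fun v => v.a = 0).card : R) * φ a := by
    intro a
    rw [← h2 a, ← nsmul_eq_mul, ← Finset.sum_const]
    refine Finset.sum_congr rfl fun v hv => ?_
    rw [(Finset.mem_filter.1 hv).2]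
  rw [Finset.sum_congr rfl fun a _ => h3 a, ← Finset.mul_sum, h0, mul_zero]

end

theorem hBL0 : StBL0.{u, v, w, z, y, o} := by
  intro k F R K E Ω _ _ _ _ _ σ _ _ _ _ hσ _ _ H S G χ x hS hA N hN b hb
  have hσb : σ b ≠ 0 := by
    intro h
    exact hb ((map_eq_zero σ).1 h)
  have hε := hS.tr1 1 le_rfl (by have := hS.two; omega)
  -- (a)
  have ha : ∀ c : K, c ∈ Jn G χ N ↔ (fun s => c * G.th K χ b s) ∈ N := by
    intro c
    rw [mem_Jn]
    constructor
    · intro h
      have h1 := hN.stab _ (G.t_mem (σ b)⁻¹ (inv_ne_zero hσb)) _ h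
      rw [th_tor G χ hA 1 _ (inv_ne_zero hσb), inv_inv, hσ.inv, one_mul] at h1
      exact h1
    · intro h
      have h1 := hN.stab _ (G.t_mem (σ b) hσb) _ h
      rw [th_tor G χ hA b _ hσb, map_inv₀, hσ.inv, mul_inv_cancel₀ hb] at h1
      exact h1
  -- (b)
  have hb' : ∀ f ∈ N, ∑ v : Hei hσ, χ (-(b * v.a)) • act (G.e v) f =
      (fun s => (∑ v : Hei hσ, χ (b * v.a) • f (G.w v)) * G.th K χ b s) := by
    intro f hf
    have hout : ∀ s, s ∉ S → ∀ v : Hei hσ, act (G.e v) f s = 0 := by
      intro s hs v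
      exact hN.sup _ (hN.stab _ (G.e_mem v) f hf) s hs
    rw [th_eq]
    funext s
    rw [Finset.sum_apply]
    simp only [Pi.smul_apply]
    by_cases h : ∃ g, s = G.w g
    · obtain ⟨h, rfl⟩ := h
      rw [G.ext_w, Finset.sum_mul]
      rw [← Equiv.sum_comp ((Equiv.inv (Hei hσ)).trans (Equiv.mulLeft h))
        (fun v => χ (-(b * v.a)) • act (G.e v) f (G.w h))]
      refine Finset.sum_congr rfl fun v _ => ?_
      change χ (-(b * (h * v⁻¹).a)) • act (G.e (h * v⁻¹)) f (G.w h) = _
      rw [hA.ew, Hei.mul_a, Hei.inv_a, mul_inv_rev, inv_inv, inv_mul_cancel_right]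
      have h1 : -(b * (h.a + -v.a)) = b * v.a + -(b * h.a) := by ring
      rw [h1, AddChar.map_add_eq_mul, mul_smul, Algebra.smul_def (χ (b * v.a)),
        Algebra.smul_def (χ (b * v.a)), Algebra.smul_def]
      ring
    · have h' : ∀ g, s ≠ G.w g := fun g hg => h ⟨g, hg⟩
      rw [G.ext_no _ s h']
      by_cases hs : s = G.w0
      · rw [hs]
        have h2 : ∀ v : Hei hσ, χ (-(b * v.a)) • act (G.e v) f G.w0 =
            χ (-(b * v.a)) • f G.w0 := by
          intro v
          rw [hA.ew0]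
        rw [Finset.sum_congr rfl fun v _ => h2 v, ← Finset.sum_smul,
          sum_a hσ hε (fun a => χ (-(b * a))) (by
            have h3 := hS.sF (-b) (neg_ne_zero.2 hb)
            simp only [neg_mul] at h3
            exact h3), zero_smul]
      · apply Finset.sum_eq_zero
        intro v _
        rw [hout s _ v, smul_zero]
        intro hsS
        rcases (G.cov s).1 hsS with h3 | h3
        · exact hs h3
        · exact h h3
  refine ⟨ha, fun f hf => ?_, hb'⟩
  rw [ha, ← hb' f hf]
  exact N.sum_mem fun v _ => N.smul_mem _ (hN.stab _ (G.e_mem v) f hf)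

end Pool.Agent.Helper10.GUM
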