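import Pool.Agent.Helper70.GUM.St3

/-!
# Module GENF of project GUM (MP_0bd1d1_al)
-/

set_option autoImplicit false

namespace Pool.Agent.Helper10.GUT

open Module _root_.GUM Pool.Agent.Helper70.GUM Pool.Agent.Helper70.GUT
open UN (QE)
open OG (act Bd Stb steps Ch Wt)

universe u v w z y

/-- conjugates of transvections -/
private theorem conj_Tg {k : Type u} {F : Type v} [Field k] [Field F] [Algebra k F] {X : Type y}
    [AddCommGroup X] [Module F X] {σ : F ≃ₐ[k] F} (B : HForm σ X) (h : X ≃ₗ[F] X)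
    (hh : ∀ x y, B.f (h x) (h y) = B.f x y) (p : X) (t : X ≃ₗ[F] X) (ht : t ∈ Tg B p) :
    h * t * h⁻¹ ∈ Tg B (h p) := by
  obtain ⟨c, hc, htc⟩ := ht
  refine ⟨c, hc, fun x => ?_⟩
  change h (t (h⁻¹ x)) = _
  have h1 : h (h⁻¹ x) = x := h.apply_symm_apply x
  rw [htc, map_add, map_smul, h1]
  congr 2
  rw [← hh (h⁻¹ x) p, h1]

theorem hGENF (hEA : StEA.{u, v, y}) (hWTI : StWTI.{u, v}) (hEXI : StEXI.{u, v, y}) :
    StGENF.{u, v, w, z, y} := by
  intro k F R K _ _ _ _ X _ _ _ _ _ _ _ _ σ hQ B ψ hψ hu hG hH hW Y p p' j hND hP h4 N hN i hi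
  -- finiteness
  have hfd : FiniteDimensional k F := Module.finite_of_finrank_pos (by rw [hQ.dim]; norm_num)
  have hfF : Finite F := Module.finite_of_finite k
  have hfV : Finite ↥(VV σ) := Subtype.finite
  have hcard : IsUnit ((Nat.card (Module.Dual k ↥(VV σ)) : ℕ) : R) := by
    have : Finite (Module.Dual k ↥(VV σ)) := Module.finite_of_finite k
    rw [Module.natCard_eq_pow_finrank (K := k), Nat.cast_pow]
    exact hu.pow _
  -- the second isotropic vector
  obtain ⟨p₂, hp2, hp20, hp2q⟩ := hEXI hQ B hH Y p p' hND hP h4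
  obtain ⟨hp2Y, hp2p, hp2p'⟩ := mem_pp.1 hp2
  have hpp2 : B.f p p₂ = 0 := B.swap0 hp2p
  have hE := hEA hQ B p p₂ hP.q1 hp2q hpp2
  have hp0 : p ≠ 0 := by
    intro h
    have h1 := hP.b
    rw [h, B.zero_l] at h1
    exact zero_ne_one h1
  apply le_antisymm (hN.mono (Nat.le_succ i))
  intro f hf
  have hf1 := OG.exists_decomp (K := K) (eA B p p₂ hP.q1 hp2q hpp2) hE.add ψ hψ hcard (N (i + 1))
    (fun v f hf => hN.stab _ (hE.mem Y hP.m1 hp2Y v) (i + 1) f hf) f hf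
  refine (iSup_le ?_ : (⨆ l : Module.Dual k ↥(VV σ), N (i + 1) ⊓
    Wt K (eA B p p₂ hP.q1 hp2q hpp2) ψ l) ≤ N i) hf1
  intro l g hg
  obtain ⟨a, b, hab, hl⟩ := hWTI hQ l
  -- the vector
  obtain ⟨q, hq⟩ : ∃ q : X, q = a • p + b • p₂ := ⟨_, rfl⟩
  have hqY : q ∈ Y := by
    rw [hq]
    exact Y.add_mem (Y.smul_mem _ hP.m1) (Y.smul_mem _ hp2Y)
  have hqq : B.f q q = 0 := by
    rw [hq]
    simp only [B.add, B.add_r, B.smul, B.smul_r, hP.q1, hp2q, hpp2, hp2p]
    ring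
  have hq0 : q ≠ 0 := by
    intro h
    have h1 : B.f q p' = a := by
      rw [hq]
      simp only [B.add, B.smul, hP.b, hp2p']
      ring
    rw [h, B.zero_l] at h1
    have hb : b ≠ 0 := by
      rcases hab with h2 | h2
      · exact absurd h1.symm h2
      · exact h2
    rw [← h1, zero_smul, zero_add, h] at hq
    rcases smul_eq_zero.1 hq.symm with h2 | h2
    · exact hb h2
    · exact hp20 h2
  -- invariance under the transvections at `q`
  have hinv : ∀ t ∈ Tg B q, act t g = g := by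
    intro t ht
    obtain ⟨c, hc, htc⟩ := ht
    have h1 : t = eA B p p₂ hP.q1 hp2q hpp2 (vt hQ c a b hc) := by
      apply LinearEquiv.ext
      intro x
      rw [hE.tra hQ c a b hc x, htc, hq]
    rw [h1, hg.2 (vt hQ c a b hc), hl c hc, AddChar.map_zero_eq_one, one_smul]
  -- conjugate to `p`
  obtain ⟨h, hh, hhp⟩ := hW Y hND p hP.m1 q hqY hp0 hq0 (by rw [hP.q1, hqq])
  have hh' := hG.inv Y h hh
  have h1 : act h⁻¹ g ∈ N (i + 1) ⊓ IT R K B p := by
    refine ⟨hN.stab _ hh' _ g hg.1, ?_⟩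
    intro t ht
    have h2 : h * t * h⁻¹ ∈ Tg B q := by
      rw [← hhp]
      exact conj_Tg B h hh.1 p t ht
    have h3 := hinv _ h2
    rw [← OG.act_mul]
    have h4 : t * h⁻¹ = h⁻¹ * (h * t * h⁻¹) := by group
    rw [h4, OG.act_mul, h3]
  rw [← hi] at h1
  have h2 := hN.stab h hh i _ h1.1
  rwa [OG.act_act_inv] at h2

end Pool.Agent.Helper10.GUT
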