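import Pool.Agent.Helper70.GUM.St1

/-!
# Module SUM of project GUM (MP_0bd1d1_al): character sums
-/

set_option autoImplicit false

namespace Pool.Agent.Helper10.GUM

open Pool.Agent.Helper70.GUM Module OG UN

universe u v w z

section

variable {k : Type u} {F : Type v} {R : Type w} [Field k] [Field F] [Algebra k F] {σ : F ≃ₐ[k] F}
  [CommRing R] [IsDomain R] {χ : AddChar F R}

private theorem line (hQ : QE σ) {η z : F} (h1 : η + σ η = 0) (h2 : η ≠ 0) (h3 : z + σ z = 0) :
    ∃ n : k, z = η * algebraMap k F n := by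
  have h4 : σ η = -η := (eq_neg_of_add_eq_zero_right h1)
  have h5 : σ z = -z := (eq_neg_of_add_eq_zero_right h3)
  obtain ⟨n, hn⟩ := hQ.fix (z / η) (by rw [map_div₀, h4, h5, neg_div_neg_eq])
  refine ⟨n, ?_⟩
  rw [hn]
  field_simp

private theorem alg_fix (n : k) : σ (algebraMap k F n) = algebraMap k F n := σ.commutes n

private theorem cancel {c S : R} (hc : c ≠ 1) (h : S = c * S) : S = 0 := by
  have h1 : (c - 1) * S = 0 := by linear_combination -h
  rcases mul_eq_zero.1 h1 with h2 | h2
  · exact absurd (sub_eq_zero.1 h2) hc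
  · exact h2

private theorem norm_pow {x : F} (hx : x * σ x = 1) (j : ℕ) : x ^ j * σ (x ^ j) = 1 := by
  rw [map_pow, ← mul_pow, hx, one_pow]

private theorem pow_inj {x : F} {q : ℕ} (hx0 : x ≠ 0) (hxj : ∀ j, 1 ≤ j → j ≤ q → x ^ j ≠ 1)
    {i j : ℕ} (hi : i ≤ q) (hj : j ≤ q) (h : x ^ i = x ^ j) : i = j := by
  rcases lt_trichotomy i j with h1 | h1 | h1
  · exfalso
    apply hxj (j - i) (by omega) (by omega)
    have h2 : x ^ j = x ^ i * x ^ (j - i) := by
      rw [← pow_add]
      congr 1
      omega
    rw [h2] at h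
    have h3 : x ^ i * x ^ (j - i) = x ^ i * 1 := by rw [mul_one]; exact h.symm
    exact mul_left_cancel₀ (pow_ne_zero _ hx0) h3
  · exact h1
  · exfalso
    apply hxj (i - j) (by omega) (by omega)
    have h2 : x ^ i = x ^ j * x ^ (i - j) := by
      rw [← pow_add]
      congr 1
      omega
    rw [h2] at h
    have h3 : x ^ j * x ^ (i - j) = x ^ j * 1 := by rw [mul_one]; exact h
    exact mul_left_cancel₀ (pow_ne_zero _ hx0) h3

end

open scoped Classical in
theorem hSUM : StSUM.{u, v, w, z} := by
  intro k F R K _ _ _ _ _ σ _ _ _ χ r x hQ hC hF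
  have hx0 : x ≠ 0 := by
    intro h
    have := hC.xn
    rw [h, zero_mul] at this
    exact zero_ne_one this
  obtain ⟨z0, hz0, hχ⟩ := hC.chi
  obtain ⟨y, hy⟩ := hQ.ne
  have hτ0 : y - σ y ≠ 0 := fun h => hy (sub_eq_zero.1 h).symm
  have hτ1 : (y - σ y) + σ (y - σ y) = 0 := by
    rw [map_sub, hQ.inv]
    ring
  have hnrm : ∀ a : F, ∃ n : k, algebraMap k F n = a * σ a := fun a =>
    hQ.fix (a * σ a) (by rw [map_mul, hQ.inv, mul_comm])
  have hsk : ∀ η : F, η + σ η = 0 → η ≠ 0 → ∑ n : k, χ (η * algebraMap k F n) = 0 := by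
    intro η h1 h2
    obtain ⟨n0, hn0⟩ := line hQ h1 h2 hz0
    apply cancel hχ
    rw [Finset.mul_sum, ← Equiv.sum_comp (Equiv.addLeft n0)
      (fun n => χ (η * algebraMap k F n))]
    refine Finset.sum_congr rfl fun n _ => ?_
    rw [Equiv.coe_addLeft, map_add, mul_add, ← hn0, AddChar.map_add_eq_mul]
  refine ⟨hF, ?_, ?_, hsk, ?_, ?_, ?_, ?_, ?_, ?_, ?_, hnrm, ?_⟩
  · -- cardF0
    rw [Nat.card_eq_fintype_card, ← Finset.card_univ]
    symm
    refine Finset.card_bij (fun n _ => (y - σ y) * algebraMap k F n) ?_ ?_ ?_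
    · intro n _
      rw [mem_F0, map_mul, alg_fix, ← add_mul, hτ1, zero_mul]
    · intro n _ m _ h
      exact (algebraMap k F).injective (mul_left_cancel₀ hτ0 h)
    · intro b hb
      rw [mem_F0] at hb
      obtain ⟨n, hn⟩ := line hQ hτ1 hτ0 hb
      exact ⟨n, Finset.mem_univ _, hn.symm⟩
  · -- two
    rw [Nat.card_eq_fintype_card]
    exact Fintype.one_lt_card
  · -- s0
    intro n hn
    have hn' : algebraMap k F n ≠ 0 := by
      intro h
      exact hn ((map_eq_zero _).1 h)
    apply cancel hχ
    rw [Finset.mul_sum]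
    symm
    refine Finset.sum_bij (fun b _ => b + z0 / algebraMap k F n) ?_ ?_ ?_ ?_
    · intro b hb
      rw [mem_F0] at hb ⊢
      rw [map_add, map_div₀, alg_fix]
      have h1 : z0 / algebraMap k F n + σ z0 / algebraMap k F n = 0 := by
        rw [← add_div, hz0, zero_div]
      linear_combination hb + h1
    · intro b _ c _ h
      exact add_right_cancel h
    · intro b hb
      rw [mem_F0] at hb
      refine ⟨b - z0 / algebraMap k F n, ?_, by ring⟩
      rw [mem_F0, map_sub, map_div₀, alg_fix]
      have h1 : z0 / algebraMap k F n + σ z0 / algebraMap k F n = 0 := by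
        rw [← add_div, hz0, zero_div]
      linear_combination hb - h1
    · intro b _
      have h1 : algebraMap k F n * (b + z0 / algebraMap k F n) = z0 + algebraMap k F n * b := by
        field_simp
        ring
      rw [h1, AddChar.map_add_eq_mul]
  · -- gauss
    intro η h1 h2
    choose s hs using hQ.nrm
    have hs0 : ∀ n : k, n ≠ 0 → s n ≠ 0 := by
      intro n hn h
      have h3 := hs n
      rw [h, zero_mul] at h3
      exact hn ((map_eq_zero (algebraMap k F)).1 h3.symm)
    have h3 : ∑ a ∈ Finset.univ.erase (0 : F), χ (η * (a * σ a)) =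
        ∑ p ∈ (Finset.univ.erase (0 : k)) ×ˢ Finset.range (Nat.card k + 1),
          χ (η * algebraMap k F p.1) := by
      symm
      refine Finset.sum_bij (fun p _ => s p.1 * x ^ p.2) ?_ ?_ ?_ ?_
      · intro p hp
        rw [Finset.mem_product, Finset.mem_erase] at hp
        exact Finset.mem_erase.2 ⟨mul_ne_zero (hs0 _ hp.1.1) (pow_ne_zero _ hx0),
          Finset.mem_univ _⟩
      · intro p hp p' hp' h
        rw [Finset.mem_product, Finset.mem_erase, Finset.mem_range] at hp hp'
        have h4 : p.1 = p'.1 := by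
          apply (algebraMap k F).injective
          rw [← hs, ← hs]
          have h5 : s p.1 * x ^ p.2 * σ (s p.1 * x ^ p.2) = s p.1 * σ (s p.1) := by
            rw [map_mul]
            linear_combination (s p.1 * σ (s p.1)) * norm_pow hC.xn p.2
          have h6 : s p'.1 * x ^ p'.2 * σ (s p'.1 * x ^ p'.2) = s p'.1 * σ (s p'.1) := by
            rw [map_mul]
            linear_combination (s p'.1 * σ (s p'.1)) * norm_pow hC.xn p'.2
          have h' : s p.1 * x ^ p.2 = s p'.1 * x ^ p'.2 := h
          rw [← h5, ← h6, h']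
        have h5 : p.2 = p'.2 := by
          have h' : s p.1 * x ^ p.2 = s p'.1 * x ^ p'.2 := h
          rw [h4] at h'
          exact pow_inj hx0 hC.xj (by omega) (by omega)
            (mul_left_cancel₀ (hs0 _ hp'.1.1) h')
        exact Prod.ext h4 h5
      · intro a ha
        rw [Finset.mem_erase] at ha
        obtain ⟨n, hn⟩ := hnrm a
        have hσa : σ a ≠ 0 := by
          intro h
          exact ha.1 ((map_eq_zero σ).1 h)
        have hn0 : n ≠ 0 := by
          intro h
          rw [h, map_zero] at hn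
          exact mul_ne_zero ha.1 hσa hn.symm
        have hsn := hs0 n hn0
        have hσs : σ (s n) ≠ 0 := by
          intro h
          exact hsn ((map_eq_zero σ).1 h)
        obtain ⟨j, hj, hj'⟩ := hC.gen (a / s n) (by
          rw [map_div₀, div_mul_div_comm, ← hn, ← hs n]
          exact div_self (mul_ne_zero hsn hσs))
        refine ⟨(n, j), ?_, ?_⟩
        · rw [Finset.mem_product, Finset.mem_erase, Finset.mem_range]
          exact ⟨⟨hn0, Finset.mem_univ _⟩, Nat.lt_succ_of_le hj⟩
        · change s n * x ^ j = a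
          rw [← hj']
          field_simp
      · intro p _
        congr 1
        rw [map_mul, ← hs]
        linear_combination (-(η * (s p.1 * σ (s p.1)))) * norm_pow hC.xn p.2
    have h4 : ∑ n ∈ Finset.univ.erase (0 : k), χ (η * algebraMap k F n) = -1 := by
      have h5 := Finset.add_sum_erase Finset.univ (fun n : k => χ (η * algebraMap k F n))
        (Finset.mem_univ (0 : k))
      rw [hsk η h1 h2] at h5
      simp only [map_zero, mul_zero, AddChar.map_zero_eq_one] at h5
      linear_combination h5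
    have h5 := Finset.add_sum_erase Finset.univ (fun a : F => χ (η * (a * σ a)))
      (Finset.mem_univ (0 : F))
    rw [← h5, h3, Finset.sum_product]
    simp only [Finset.sum_const, Finset.card_range, nsmul_eq_mul,
      zero_mul, mul_zero, AddChar.map_zero_eq_one]
    rw [← Finset.mul_sum, h4]
    push_cast
    ring
  · -- sw
    intro s hs
    obtain ⟨n, hn⟩ := line hQ hτ1 hτ0 hz0
    have h1 : ∑ a : F, χ (s * σ a - a * σ s) = ∑ w : F, χ (w - σ w) := by
      rw [← Equiv.sum_comp (σ.toEquiv.trans (Equiv.mulLeft₀ s hs)) (fun w => χ (w - σ w))]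
      refine Finset.sum_congr rfl fun a _ => ?_
      change χ (s * σ a - a * σ s) = χ (s * σ a - σ (s * σ a))
      rw [map_mul, hQ.inv, mul_comm a]
    rw [h1]
    apply cancel hχ
    rw [Finset.mul_sum, ← Equiv.sum_comp (Equiv.addLeft (algebraMap k F n * y))
      (fun w => χ (w - σ w))]
    refine Finset.sum_congr rfl fun w _ => ?_
    have h2 : Equiv.addLeft (algebraMap k F n * y) w - σ (Equiv.addLeft (algebraMap k F n * y) w) =
        z0 + (w - σ w) := by
      rw [Equiv.coe_addLeft, map_add, map_mul, alg_fix, hn]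
      ring
    rw [h2, AddChar.map_add_eq_mul]
  · -- sF
    intro b hb
    apply cancel hχ
    rw [Finset.mul_sum, ← Equiv.sum_comp (Equiv.addLeft (z0 / b)) (fun a => χ (b * a))]
    refine Finset.sum_congr rfl fun a _ => ?_
    have h2 : b * Equiv.addLeft (z0 / b) a = z0 + b * a := by
      rw [Equiv.coe_addLeft, mul_add]
      field_simp
    rw [h2, AddChar.map_add_eq_mul]
  · -- tr1
    intro j h1 h2
    have h3 := norm_pow hC.xn j
    have h4 : x ^ j ≠ 0 := pow_ne_zero _ hx0
    have h5 : 1 - x ^ j ≠ 0 := fun h => hC.xj j h1 h2 (sub_eq_zero.1 h).symm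
    have h6 : σ (x ^ j) = (x ^ j)⁻¹ := eq_inv_of_mul_eq_one_right h3
    unfold ep
    rw [map_inv₀, map_sub, map_one, h6]
    generalize x ^ j = t at h4 h5
    have h7 : 1 - t⁻¹ = -(1 - t) * t⁻¹ := by
      field_simp
      ring
    rw [h7, mul_inv, inv_inv, inv_neg]
    have h8 : (1 - t) * (1 - t)⁻¹ = 1 := mul_inv_cancel₀ h5
    linear_combination h8
  · -- inj
    intro i j h1 h2 h3 h4 h
    unfold ep at h
    rw [inv_inj, sub_right_inj] at h
    exact pow_inj hx0 hC.xj h2 h4 h
  · -- sur
    intro ε hε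
    have h1 : ε ≠ 0 := by
      intro h
      rw [h, map_zero, add_zero] at hε
      exact zero_ne_one hε
    have h2 : σ ε = 1 - ε := by linear_combination hε
    have h3 : 1 - ε ≠ 0 := by
      rw [← h2]
      intro h
      exact h1 ((map_eq_zero σ).1 h)
    obtain ⟨j, hj, hj'⟩ := hC.gen ((ε - 1) / ε) (by
      rw [map_div₀, map_sub, map_one, h2]
      field_simp
      ring)
    have hj0 : j ≠ 0 := by
      intro h
      rw [h, pow_zero, div_eq_one_iff_eq h1] at hj'
      have : (1 : F) = 0 := by linear_combination -hj'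
      exact one_ne_zero this
    refine ⟨j, by omega, hj, ?_⟩
    unfold ep
    rw [← hj']
    have h4 : 1 - (ε - 1) / ε = ε⁻¹ := by
      field_simp
      ring
    rw [h4, inv_inv]
  · -- trc
    intro c
    exact hQ.fix (c + σ c) (by rw [map_add, hQ.inv, add_comm])

end Pool.Agent.Helper10.GUM
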