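import Pool.Agent.Helper60.GUM.St

/-!
# Module TOR of project GUM (MP_0bd1d1_al): the torus element
-/

set_option autoImplicit false

namespace Pool.Agent.Helper10.GUM

open Module OG _root_.GUM

variable {k F X : Type*} [Field k] [Field F] [Algebra k F] [AddCommGroup X] [Module F X]
  {σ : F ≃ₐ[k] F} {B : HForm σ X}

/-- The linear map `x + ((a - 1) B(x,p')) p + ((b - 1) B(x,p)) p'`. -/
private def torL (B : HForm σ X) (p p' : X) (a b : F) : X →ₗ[F] X :=
  LinearMap.id + (a - 1) • (B.l p').smulRight p + (b - 1) • (B.l p).smulRight p'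

private theorem torL_apply (p p' : X) (a b : F) (x : X) :
    torL B p p' a b x = x + ((a - 1) * B.f x p') • p + ((b - 1) * B.f x p) • p' := by
  simp [torL, mul_smul, HForm.l_apply]

private theorem torL_comp {Y : Submodule F X} {p p' : X} (h : HP B Y p p') (a b c d : F)
    (hac : a * c = 1) (hbd : b * d = 1) (x : X) :
    torL B p p' a b (torL B p p' c d x) = x := by
  have hb := B.swap1 h.b
  have h1 : B.f (torL B p p' c d x) p' = c * B.f x p' := by
    rw [torL_apply]
    simp only [B.add, B.smul, h.b, h.q2]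
    ring
  have h2 : B.f (torL B p p' c d x) p = d * B.f x p := by
    rw [torL_apply]
    simp only [B.add, B.smul, hb, h.q1]
    ring
  rw [torL_apply p p' a b, h1, h2, torL_apply]
  have e1 : (a - 1) * (c * B.f x p') = B.f x p' - c * B.f x p' := by
    linear_combination (B.f x p') * hac
  have e2 : (b - 1) * (d * B.f x p) = B.f x p - d * B.f x p := by
    linear_combination (B.f x p) * hbd
  rw [e1, e2]
  module

theorem hTor (hQ : UN.QE σ) : StTor B := by
  intro Y p p' h c hc
  have hb := B.swap1 h.b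
  have hsc : σ c ≠ 0 := by
    intro h0
    exact hc (by simpa using h0)
  have hss : σ ((σ c)⁻¹) = c⁻¹ := by rw [map_inv₀, hQ.inv]
  let t : X ≃ₗ[F] X := LinearEquiv.ofLinearMap (torL B p p' c (σ c)⁻¹)
    (torL B p p' c⁻¹ (σ c))
    (by ext x; exact torL_comp h c (σ c)⁻¹ c⁻¹ (σ c) (mul_inv_cancel₀ hc)
          (inv_mul_cancel₀ hsc) x)
    (by ext x; exact torL_comp h c⁻¹ (σ c) c (σ c)⁻¹ (inv_mul_cancel₀ hc)
          (mul_inv_cancel₀ hsc) x)
  have ht : ∀ x, t x = x + ((c - 1) * B.f x p') • p + (((σ c)⁻¹ - 1) * B.f x p) • p' :=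
    fun x => torL_apply p p' c (σ c)⁻¹ x
  have hfix : ∀ x, B.f x p = 0 → B.f x p' = 0 → t x = x := by
    intro x hx hx'
    rw [ht, hx, hx']
    simp
  refine ⟨t, ⟨fun x y => ?_, fun x => ?_, fun x hx => ?_⟩, ?_, ?_, hfix⟩
  · rw [ht, ht]
    simp only [B.add, B.add_r, B.smul, B.smul_r, map_mul, map_sub, map_one, hss, h.b, hb, h.q1,
      h.q2]
    rw [B.sym y p, B.sym y p']
    have e1 : (σ c)⁻¹ * σ c = 1 := inv_mul_cancel₀ hsc
    have e2 : c * c⁻¹ = 1 := mul_inv_cancel₀ hc
    linear_combination (B.f x p * σ (B.f y p')) * e1 + (B.f x p' * σ (B.f y p)) * e2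
  · have h5 : t x - x = ((c - 1) * B.f x p') • p + (((σ c)⁻¹ - 1) * B.f x p) • p' := by
      rw [ht]
      module
    rw [h5]
    exact Y.add_mem (Y.smul_mem _ h.m1) (Y.smul_mem _ h.m2)
  · exact hfix x (hx p h.m1) (hx p' h.m2)
  · rw [ht, h.q1, h.b]
    module
  · rw [ht, h.q2, hb]
    module

end Pool.Agent.Helper10.GUM
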